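import Pool.Agent.helper81.LclFinal
import Pool.Agent.helper28.LCL.Build
import Pool.Agent.helper13.LCL.BorelSide

/-!
# `BAIRE(ℤⁿ) ≠ BOREL(ℤⁿ)` for every `n ≥ 2`

The locally checkable problem lives on the first two coordinates (`Pool.Agent.helper13.LCL.Defs`).
A label says whether a site is a marker of a base strand, of the rising or of the falling part of a
roof strand, whether the strand starts or ends there and how it continues in the next column, and
carries a colour modulo 2 and a height modulo 11.  Base and roof strands bound triangular islands;
the colours alternate along all edges which do not cross the boundary of an island, heights change
by at most 2 along such edges, increase by exactly 1 per column along the inside of every base and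
roof, and are constant along the outside of every island.

*Baire side.* Centres of islands of sizes growing very fast are chosen generically (Baire
category); the island of each centre avoids the smaller ones, and the height is a Lipschitz
function of slope at most 3/2 that is constant near each smaller island.

*Borel side.* For the rotations of the circle by `√2` and `√3`: strands with an end are finite, and
there are no infinite strands, by mass transport and because the height difference between two
consecutive infinite strands of equal kind changes by exactly 1 per column.  Row sums of the heights
show that at least half of every island lies outside its subislands, so almost every site is in
finitely many islands.  Then the colour on the complement of all islands has a global parity, which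
contradicts the ergodicity of the rotation by `2√2`.
-/

namespace Pool.Agent.Results.MP_68d169_lc.BaireNeBorel

open Pool.Agent.helper81.LclProblem

/-- For every `n ≥ 2` there is a locally checkable labeling problem on `ℤⁿ` which has a Baire
measurable solution for every free Borel action on a Polish space, but no Borel solution for some
free Borel action on a standard Borel space. -/
theorem result (n : ℕ) (hn : 2 ≤ n) : ∃ P : LCL (Fin n → ℤ), InBaire P ∧ ¬ InBorel P :=
  Pool.Agent.helper81.LclFinal.main_of
    (fun _ _ _ _ _ _ h1 h2 => LCLZ.baire_side h1 h2)
    (fun ⟨F, h1, h2⟩ => LCLZ.borel_side ⟨F, fun A _ => h1 A, h2⟩) n hn

end Pool.Agent.Results.MP_68d169_lc.BaireNeBorel
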